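import Pool.Agent.Run7.h492.ChgBasis

/-!
The pointwise measurable Sarnak conjecture over number fields: for every number field, every
integral basis, every bounded multiplicative aperiodic function and every system of commuting
measure preserving maps, the averages converge to zero almost everywhere.

Aperiodicity is defined through an integral basis. The theorem allows it to be tested with
respect to an integral basis `c` that may differ from the basis `b` used in the averages; the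
question is the case `c = b`.
-/

set_option linter.unusedVariables false

noncomputable section

open NumberField MeasureTheory Filter
open scoped ENNReal

namespace Pool.Agent.Results.MP_d4a191_nt.PointwiseSarnak

section defs
variable {K : Type*} [Field K] [NumberField K] {D : ℕ}

/-- The element `ι(n) = n₁ b₁ + ⋯ + n_D b_D` of the ring of integers. -/
def iota (b : Module.Basis (Fin D) ℤ (𝓞 K)) (n : Fin D → ℤ) : 𝓞 K := ∑ i, n i • b i

/-- The class `𝓜_K`: functions bounded by `1` in absolute value with `χ(mn) = χ(m)χ(n)` whenever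
the norms of `m` and `n` are coprime in `ℤ`. -/
def MemMK (χ : 𝓞 K → ℂ) : Prop :=
  (∀ m : 𝓞 K, ‖χ m‖ ≤ 1) ∧
    ∀ m n : 𝓞 K, IsCoprime (Algebra.norm ℤ m) (Algebra.norm ℤ n) → χ (m * n) = χ m * χ n

/-- `D`-dimensional arithmetic progressions
`{n₀ + (M₁ k₁, …, M_D k_D) : 0 ≤ k_i < N_i}` with all `M_i, N_i ≥ 1`. -/
def IsAP (P : Set (Fin D → ℤ)) : Prop :=
  ∃ (n₀ : Fin D → ℤ) (M N : Fin D → ℕ), (∀ i, 1 ≤ M i) ∧ (∀ i, 1 ≤ N i) ∧
    P = {n | ∃ k : Fin D → ℕ, (∀ i, k i < N i) ∧ ∀ i, n i = n₀ i + (M i : ℤ) * (k i : ℤ)}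

/-- The average `(2N+1)^{-D} ∑_{-N ≤ n_i ≤ N} 1_P(n) χ(ι(n))`. -/
def apAvg (b : Module.Basis (Fin D) ℤ (𝓞 K)) (χ : 𝓞 K → ℂ) (P : Set (Fin D → ℤ)) (N : ℕ) : ℂ :=
  (1 / (2 * (N : ℂ) + 1) ^ D) *
    ∑ n ∈ Fintype.piFinset (fun _ : Fin D => Finset.Icc (-(N : ℤ)) (N : ℤ)),
      P.indicator (fun n => χ (iota b n)) n

/-- Aperiodicity: the supremum over all `D`-dimensional arithmetic progressions `P` of
`|apAvg b χ P N|` tends to `0` as `N → ∞`. -/
def Aperiodic (b : Module.Basis (Fin D) ℤ (𝓞 K)) (χ : 𝓞 K → ℂ) : Prop :=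
  Tendsto (fun N : ℕ => ⨆ P : {P : Set (Fin D → ℤ) // IsAP P}, ‖apAvg b χ P.1 N‖) atTop (nhds 0)

end defs

/-- The point `T₁^{n₁} ⋯ T_D^{n_D} x`. -/
def orbit {D : ℕ} {X : Type*} (T : Fin D → X → X) (n : Fin D → ℕ) (x : X) : X :=
  (List.finRange D).foldr (fun i y => (T i)^[n i] y) x

section proof
variable {K : Type*} [Field K] {D : ℕ} (b : Module.Basis (Fin D) ℤ (𝓞 K))

lemma apAvg_norm_le (χ : 𝓞 K → ℂ) (hχ : ∀ m : 𝓞 K, ‖χ m‖ ≤ 1) (P : Set (Fin D → ℤ)) (N : ℕ) :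
    ‖apAvg b χ P N‖ ≤ 1 := by
  have h3 : ‖(2 * (N:ℂ) + 1)‖ = 2 * (N:ℝ) + 1 := by
    have : (2 * (N:ℂ) + 1) = ((2 * (N:ℝ) + 1 : ℝ) : ℂ) := by push_cast; ring
    rw [this, Complex.norm_real, Real.norm_of_nonneg (by positivity)]
  rw [apAvg, norm_mul, norm_div, norm_one, norm_pow, h3, one_div, inv_mul_le_iff₀ (by positivity), mul_one]
  refine (norm_sum_le _ _).trans ?_
  have hcard : (((Fintype.piFinset (fun _ : Fin D => Finset.Icc (-(N : ℤ)) (N : ℤ))).card : ℕ) : ℝ) =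
      (2 * (N:ℝ) + 1) ^ D := by
    have := PSarnak.card_box (D := D) N
    rw [PSarnak.box] at this
    rw [this]; push_cast; rfl
  rw [← hcard]
  calc _ ≤ ∑ n ∈ Fintype.piFinset (fun _ : Fin D => Finset.Icc (-(N : ℤ)) (N : ℤ)), (1:ℝ) := by
        apply Finset.sum_le_sum
        intro n _
        refine (norm_indicator_le_norm_self _ _).trans ?_
        exact hχ _
    _ = _ := by simp

lemma ap_small (χ : 𝓞 K → ℂ) (hχ : ∀ m : 𝓞 K, ‖χ m‖ ≤ 1) (hap : Aperiodic b χ) (ε : ℝ) (hε : 0 < ε) :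
    ∃ N₀ : ℕ, ∀ N : ℕ, N₀ ≤ N → ∀ (n₀ : Fin D → ℤ) (W : ℕ) (L : Fin D → ℕ), 1 ≤ W →
      (∀ i, 1 ≤ L i) → ‖apAvg b χ (PSarnak.prog n₀ W L) N‖ ≤ ε := by
  rw [Aperiodic, Metric.tendsto_atTop] at hap
  obtain ⟨N₀, hN₀⟩ := hap ε hε
  refine ⟨N₀, ?_⟩
  intro N hN n₀ W L hW hL
  have h1 := hN₀ N hN
  rw [Real.dist_eq, sub_zero] at h1
  have h2 : IsAP (PSarnak.prog n₀ W L) := ⟨n₀, fun _ => W, L, fun _ => hW, hL, rfl⟩
  have h3 : BddAbove (Set.range (fun P : {P : Set (Fin D → ℤ) // IsAP P} => ‖apAvg b χ P.1 N‖)) := by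
    refine ⟨1, ?_⟩
    rintro _ ⟨P, rfl⟩
    exact apAvg_norm_le b χ hχ P.1 N
  have h4 := le_ciSup h3 ⟨PSarnak.prog n₀ W L, h2⟩
  exact (h4.trans (le_abs_self _)).trans h1.le

end proof

/-- The pointwise measurable Sarnak conjecture over number fields. -/
theorem result {K : Type*} [Field K] [NumberField K] {D : ℕ}
    (b c : Module.Basis (Fin D) ℤ (𝓞 K)) (χ : 𝓞 K → ℂ) (hχ : MemMK χ) (hap : Aperiodic c χ)
    {X : Type*} [MeasurableSpace X] (μ : Measure X) [IsProbabilityMeasure μ]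
    (T : Fin D → X → X) (hT : ∀ i, MeasurePreserving (T i) μ μ)
    (hc : ∀ i j, ∀ᵐ x ∂μ, T i (T j x) = T j (T i x))
    (Φ : X → ℂ) (hΦ : MemLp Φ ∞ μ) :
    ∀ᵐ x ∂μ, Tendsto (fun N : ℕ => (1 / (N : ℂ) ^ D) *
      ∑ n ∈ Fintype.piFinset (fun _ : Fin D => Finset.Icc 1 N),
        χ (iota b (fun i => (n i : ℤ))) * Φ (orbit T n x)) atTop (nhds 0) := by
  have hiot : ∀ (e : Module.Basis (Fin D) ℤ (𝓞 K)) n, PSarnak.iot e n = iota e n :=
    fun e n => PSarnak.iot_eq e n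
  have hap' := ap_small c χ hχ.1 hap
  have hAPz := PSarnak.apz_change b c χ hχ.1 (by
    simp only [hiot]
    exact hap')
  have h := PSarnak.pointwise_main b χ hχ.1 (by
      intro x y hxy
      apply hχ.2
      rw [Int.isCoprime_iff_gcd_eq_one]
      exact hxy) hAPz μ T hc hT Φ hΦ
  simp only [hiot] at h
  exact h

end Pool.Agent.Results.MP_d4a191_nt.PointwiseSarnak
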